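import Pool.Agent.H71.RS.M7
import Pool.Agent.H81.LO.Odd
import Pool.Agent.H86.UN.Eight

set_option autoImplicit false

/-!
If the elements `L_w^2` (`w` an involution) permute the elements of odd order inverted by `z_x`, then
they are trivial.
-/

namespace ALoop

open Equiv Pool.Agent.H86.UN

variable {Q : Type*} {G : Subgroup (Perm Q)} {L : Q → Perm Q} {J : Perm Q} {e : Q}

namespace AL

theorem LL_Inn (h : AL G L J e) {w : Q} (hw : J w = w) : L w * L w ∈ Inn G e := by
  refine ⟨G.mul_mem (h.memL w) (h.memL w), ?_⟩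
  show L w (L w e) = e
  rw [h.Le]
  exact h.LxLx hw

/-- (B) of Route S implies `L_w^2 = 1` for all involutions `w` -/
theorem lam_one [Finite Q] (h : AL G L J e) (hcardQ : 2 ∣ Nat.card Q)
    (hB : ∀ x w, J x = x → x ≠ e → J w = w → ∀ b ∈ Inn G e, Odd (orderOf b) →
      (D L J x * J) * b * (D L J x * J) = b⁻¹ →
      (D L J x * J) * ((L w * L w) * b * (L w * L w)⁻¹) * (D L J x * J) =
        ((L w * L w) * b * (L w * L w)⁻¹)⁻¹) :
    ∀ w, J w = w → L w * L w = 1 := by
  classical
  obtain ⟨x, hxe, hJx⟩ := h.exists_inv_pt hcardQ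
  have hzE : D L J x * J ∈ EE L J e := ⟨x, hJx, hxe, rfl⟩
  have hzI := h.EE_Inn hzE
  have hzz := h.EE_sq hzE
  have hz1 : D L J x * J ≠ 1 := h.Z_ne (h.zx_mem hJx hxe)
  obtain ⟨z, hz⟩ : ∃ z, z = D L J x * J := ⟨_, rfl⟩
  rw [← hz] at hzI hzz hz1
  let N : Subgroup (Inn G e) := Subgroup.closure {n | ∃ w, J w = w ∧ (n : Perm Q) = L w * L w}
  have hgen : ∀ w (hw : J w = w), (⟨L w * L w, h.LL_Inn hw⟩ : Inn G e) ∈ N := fun w hw =>
    Subgroup.subset_closure ⟨w, hw, rfl⟩
  have hN : N.Normal := by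
    refine ⟨fun n hn g => ?_⟩
    have h1 : N ≤ N.comap (MulAut.conj g).toMonoidHom := by
      refine (Subgroup.closure_le _).2 ?_
      rintro n ⟨w, hw, hn⟩
      show g * n * g⁻¹ ∈ N
      have hgJ := h.comJ g.1 g.2.1 g.2.2
      have hgw : J ((g : Perm Q) w) = (g : Perm Q) w := by
        rw [← Perm.mul_apply, ← hgJ, Perm.mul_apply, hw]
      have h2 := h.equi g.1 g.2.1 g.2.2 w
      have h3 : g * n * g⁻¹ = ⟨L ((g : Perm Q) w) * L ((g : Perm Q) w), h.LL_Inn hgw⟩ := by
        apply Subtype.ext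
        show (g : Perm Q) * n * (g : Perm Q)⁻¹ = L ((g : Perm Q) w) * L ((g : Perm Q) w)
        rw [← h2, hn]; group
      rw [h3]
      exact hgen _ hgw
    exact h1 hn
  by_cases hN0 : N = ⊥
  · intro w hw
    have h1 := hgen w hw
    rw [hN0, Subgroup.mem_bot] at h1
    exact congrArg Subtype.val h1
  exfalso
  refine Pool.Agent.H71.RS.m7 (M := Inn G e) (fun A hA hs => h.no_solvable hcardQ A hA hs) N hN ?_
    ⟨z, hzI⟩ (Subtype.ext hzz) (fun h1 => hz1 (congrArg Subtype.val h1)) ?_
  · intro g hg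
    have hC : (Subgroup.centralizer (N : Set (Inn G e))).Normal := Subgroup.normal_centralizer
    rcases h.commuting_normal' hcardQ N (Subgroup.centralizer (N : Set (Inn G e))) hN hC (by
      intro a ha b hb
      rw [Subgroup.mem_centralizer_iff] at hb
      exact hb a ha) with h1 | h1
    · exact absurd h1 hN0
    · have h2 : g ∈ Subgroup.centralizer (N : Set (Inn G e)) := by
        rw [Subgroup.mem_centralizer_iff]
        intro n hn
        exact (hg n hn).symm
      rw [h1, Subgroup.mem_bot] at h2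
      exact h2
  · -- the elements of `N` permute the elements inverted by `z`
    let Kp : Inn G e → Prop := fun b => Odd (orderOf b) ∧
      (⟨z, hzI⟩ : Inn G e) * b * ⟨z, hzI⟩ = b⁻¹
    have hgenK : ∀ n : Inn G e, (∃ w, J w = w ∧ (n : Perm Q) = L w * L w) →
        ∀ b, Kp b → Kp (n * b * n⁻¹) := by
      rintro n ⟨w, hw, hn⟩ b ⟨hb1, hb2⟩
      refine ⟨?_, ?_⟩
      · have h1 : orderOf (n * b * n⁻¹) = orderOf b :=
          orderOf_injective (MulAut.conj n).toMonoidHom (MulAut.conj n).injective b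
        rw [h1]; exact hb1
      · apply Subtype.ext
        show z * ((n : Perm Q) * b * (n : Perm Q)⁻¹) * z = ((n : Perm Q) * b * (n : Perm Q)⁻¹)⁻¹
        rw [hn, hz]
        apply hB x w hJx hxe hw b.1 b.2
        · rw [Subgroup.orderOf_coe]; exact hb1
        · rw [← hz]; exact congrArg Subtype.val hb2
    have hpowK : ∀ n : Inn G e, (∀ b, Kp b → Kp (n * b * n⁻¹)) → ∀ k : ℕ, ∀ b, Kp b →
        Kp (n ^ k * b * (n ^ k)⁻¹) := by
      intro n hn k
      induction k with
      | zero => intro b hb; simpa using hb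
      | succ k ih =>
        intro b hb
        have h1 : n ^ (k + 1) * b * (n ^ (k + 1))⁻¹ = n * (n ^ k * b * (n ^ k)⁻¹) * n⁻¹ := by
          rw [pow_succ']; group
        rw [h1]
        exact hn _ (ih b hb)
    have hall : ∀ n ∈ N, ∀ b, Kp b → Kp (n * b * n⁻¹) := by
      intro n hn
      induction hn using Subgroup.closure_induction with
      | mem n hn => exact hgenK n hn
      | one => intro b hb; simpa using hb
      | mul a c _ _ iha ihc =>
        intro b hb
        have h1 : a * c * b * (a * c)⁻¹ = a * (c * b * c⁻¹) * a⁻¹ := by group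
        rw [h1]
        exact iha _ (ihc b hb)
      | inv a _ iha =>
        intro b hb
        have h1 : a⁻¹ = a ^ (orderOf a - 1) := by
          apply inv_eq_of_mul_eq_one_right
          rw [← pow_succ', Nat.sub_add_cancel (orderOf_pos a), pow_orderOf_eq_one]
        rw [h1]
        exact hpowK a iha _ b hb
    intro n hn b hb1 hb2
    exact (hall n hn b ⟨hb1, hb2⟩).2

end AL

end ALoop
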