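import Pool.Agent.H81.LO.BS

set_option autoImplicit false

/-!
Group theory: a normal subgroup `N` with trivial centraliser of a finite group without nontrivial solvable
normal subgroups cannot permute the elements of odd order which are inverted by an involution `z`.
-/

namespace Pool.Agent.H71.RS

open Subgroup

variable {M : Type*} [Group M]

/-- a `p`-subgroup of the normal subgroup `N` which is normalised by `N` is trivial -/
theorem opN [Finite M] {p : ℕ} [Fact p.Prime]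
    (hsol : ∀ A : Subgroup M, A.Normal → Group.IsSolvable A → A = ⊥)
    (N : Subgroup M) (hN : N.Normal) (R : Subgroup M) (hRN : R ≤ N) (hRp : IsPGroup p R)
    (hRn : ∀ n ∈ N, ∀ a ∈ R, n * a * n⁻¹ ∈ R) : R = ⊥ := by
  classical
  let P : Subgroup M → Prop := fun S =>
    S ≤ N ∧ IsPGroup p S ∧ ∀ n ∈ N, ∀ a ∈ S, n * a * n⁻¹ ∈ S
  have hsup : ∀ S T, P S → P T → P (S ⊔ T) := by
    intro S T hS hT
    refine ⟨sup_le hS.1 hT.1, ?_, ?_⟩
    · refine hS.2.1.to_sup_of_normal_right' hT.2.1 ?_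
      intro s hs
      rw [mem_normalizer_iff]
      intro t
      constructor
      · intro ht
        exact hT.2.2 s (hS.1 hs) t ht
      · intro ht
        have := hT.2.2 s⁻¹ (N.inv_mem (hS.1 hs)) _ ht
        have h2 : s⁻¹ * (s * t * s⁻¹) * s⁻¹⁻¹ = t := by group
        rwa [h2] at this
    · intro n hn
      have h1 : S ⊔ T ≤ (S ⊔ T).comap (MulAut.conj n).toMonoidHom := by
        refine sup_le ?_ ?_
        · intro s hs
          exact mem_sup_left (hS.2.2 n hn s hs)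
        · intro t ht
          exact mem_sup_right (hT.2.2 n hn t ht)
      intro a ha
      exact h1 ha
  obtain ⟨S, hRS, hSm⟩ := Finite.exists_le_maximal (p := P) (a := R) ⟨hRN, hRp, hRn⟩
  have hSP : P S := hSm.prop
  have hSn : S.Normal := by
    refine ⟨fun s hs g => ?_⟩
    have hS' : P (S.map (MulAut.conj g).toMonoidHom) := by
      refine ⟨?_, hSP.2.1.map _, ?_⟩
      · rintro _ ⟨a, ha, rfl⟩
        exact hN.conj_mem a (hSP.1 ha) g
      · rintro n hn _ ⟨a, ha, rfl⟩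
        refine ⟨(g⁻¹ * n * g) * a * (g⁻¹ * n * g)⁻¹, hSP.2.2 _ ?_ a ha, ?_⟩
        · have := hN.conj_mem n hn g⁻¹
          rwa [inv_inv] at this
        · show g * ((g⁻¹ * n * g) * a * (g⁻¹ * n * g)⁻¹) * g⁻¹ = n * (g * a * g⁻¹) * n⁻¹
          group
    have h2 := hSm.le_of_ge (hsup _ _ hSP hS') le_sup_left
    exact h2 (mem_sup_right ⟨s, hs, rfl⟩)
  have hnil : Group.IsNilpotent S := hSP.2.1.isNilpotent
  have hs : Group.IsSolvable S := inferInstance
  have h3 := hsol S hSn hs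
  rw [eq_bot_iff, ← h3]
  exact hRS

/-- the final step of Route S -/
theorem m7 [Finite M]
    (hsol : ∀ A : Subgroup M, A.Normal → Group.IsSolvable A → A = ⊥)
    (N : Subgroup M) (hN : N.Normal) (hcent : ∀ g : M, (∀ n ∈ N, g * n = n * g) → g = 1)
    (z : M) (hz : z * z = 1) (hz1 : z ≠ 1)
    (hK : ∀ n ∈ N, ∀ b : M, Odd (orderOf b) → z * b * z = b⁻¹ →
      z * (n * b * n⁻¹) * z = (n * b * n⁻¹)⁻¹) : False := by
  classical
  have hzi : z⁻¹ = z := inv_eq_of_mul_eq_one_left hz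
  obtain ⟨y, hy⟩ : ∃ y : M → M, ∀ n, y n = z * (n * z * n⁻¹) := ⟨_, fun _ => rfl⟩
  have hyN : ∀ n ∈ N, y n ∈ N := by
    intro n hn
    have h1 := N.mul_mem (hN.conj_mem n hn z) (N.inv_mem hn)
    have h2 : z * n * z⁻¹ * n⁻¹ = y n := by rw [hy, hzi]; group
    rwa [h2] at h1
  have hzy : ∀ n, z * y n * z = (y n)⁻¹ := by
    intro n
    calc z * y n * z = (z * z) * (n * z * n⁻¹) * z := by rw [hy]; group
      _ = n * z * n⁻¹ * z := by rw [hz, one_mul]
      _ = n * z⁻¹ * n⁻¹ * z⁻¹ := by rw [hzi]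
      _ = (y n)⁻¹ := by rw [hy]; group
  have hyb : ∀ n ∈ N, ∀ b, Odd (orderOf b) → z * b * z = b⁻¹ → y n * b = b * y n := by
    intro n hn b hb hzb
    have h1 := hK n⁻¹ (N.inv_mem hn) b hb hzb
    rw [inv_inv] at h1
    have h2 : n * z * n⁻¹ * b * (n * z * n⁻¹) = b⁻¹ := by
      calc n * z * n⁻¹ * b * (n * z * n⁻¹) = n * (z * (n⁻¹ * b * n) * z) * n⁻¹ := by group
        _ = b⁻¹ := by rw [h1]; group
    have h4 : z * b⁻¹ * z = b := by
      calc z * b⁻¹ * z = (z⁻¹ * b * z⁻¹)⁻¹ := by group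
        _ = (z * b * z)⁻¹ := by rw [hzi]
        _ = b := by rw [hzb, inv_inv]
    have h3 : y n * b * (y n)⁻¹ = b := by
      calc y n * b * (y n)⁻¹ = z * (n * z * n⁻¹ * b * (n * z⁻¹ * n⁻¹)) * z⁻¹ := by rw [hy]; group
        _ = z * (n * z * n⁻¹ * b * (n * z * n⁻¹)) * z := by rw [hzi]
        _ = z * b⁻¹ * z := by rw [h2]
        _ = b := h4
    calc y n * b = y n * b * (y n)⁻¹ * y n := by group
      _ = b * y n := by rw [h3]
  have hyconj : ∀ m n, m * y n * m⁻¹ = (y m)⁻¹ * y (m * n) := by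
    intro m n
    calc m * y n * m⁻¹ = m * z⁻¹ * m⁻¹ * z⁻¹ * (z * (m * n * z * (m * n)⁻¹)) := by
          rw [hy]; simp only [hzi]; group
          simp [mul_assoc, hz]
      _ = (y m)⁻¹ * y (m * n) := by rw [hy, hy]; group
  obtain ⟨F, hF⟩ : ∃ F : Subgroup M, F = closure {g | ∃ n ∈ N, g = y n} := ⟨_, rfl⟩
  have hyF : ∀ n ∈ N, y n ∈ F := by
    intro n hn; rw [hF]; exact subset_closure ⟨n, hn, rfl⟩
  have hFN : F ≤ N := by
    rw [hF, closure_le]
    rintro g ⟨n, hn, rfl⟩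
    exact hyN n hn
  have hFconj : ∀ m ∈ N, ∀ f ∈ F, m * f * m⁻¹ ∈ F := by
    intro m hm
    have h1 : F ≤ F.comap (MulAut.conj m).toMonoidHom := by
      conv_lhs => rw [hF]
      rw [closure_le]
      rintro g ⟨n, hn, rfl⟩
      show m * y n * m⁻¹ ∈ F
      rw [hyconj]
      exact F.mul_mem (F.inv_mem (hyF m hm)) (hyF _ (N.mul_mem hm hn))
    intro f hf
    exact h1 hf
  have hcF : ∀ b, (∀ n ∈ N, y n * b = b * y n) → ∀ f ∈ F, f * b = b * f := by
    intro b hb f hf
    have h1 : F ≤ centralizer {b} := by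
      rw [hF, closure_le]
      rintro g ⟨n, hn, rfl⟩
      show y n ∈ centralizer {b}
      rw [mem_centralizer_iff]
      intro h hh
      rw [Set.mem_singleton_iff] at hh
      rw [hh]
      exact (hb n hn).symm
    have h2 := h1 hf
    rw [mem_centralizer_iff] at h2
    exact (h2 b rfl).symm
  -- the odd part of `y n` is trivial
  have hpow : ∀ n ∈ N, ∃ k : ℕ, y n ^ 2 ^ k = 1 := by
    intro n hn
    obtain ⟨k, m, hm, hkm⟩ := Nat.exists_eq_two_pow_mul_odd (n := orderOf (y n))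
      (orderOf_pos (y n)).ne'
    refine ⟨k, ?_⟩
    obtain ⟨b, hb⟩ : ∃ b, b = y n ^ 2 ^ k := ⟨_, rfl⟩
    have hbo : orderOf b = m := by
      rw [hb, orderOf_pow_of_dvd (by positivity) (by rw [hkm]; exact Dvd.intro m rfl), hkm]
      exact Nat.mul_div_cancel_left m (by positivity)
    have hbodd : Odd (orderOf b) := by rw [hbo]; exact hm
    have hzb : z * b * z = b⁻¹ := by
      have h1 := conj_pow (i := 2 ^ k) (a := z) (b := y n)
      rw [hzi, hzy] at h1
      rw [hb, ← h1, inv_pow]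
    have hbc : ∀ n' ∈ N, y n' * b = b * y n' := fun n' hn' => hyb n' hn' b hbodd hzb
    have hbF : b ∈ F := by rw [hb]; exact F.pow_mem (hyF n hn) _
    by_contra hne
    rw [← hb] at hne
    have ho1 : orderOf b ≠ 1 := by rw [Ne, orderOf_eq_one_iff]; exact hne
    obtain ⟨p, hp, hpd⟩ := Nat.exists_prime_and_dvd ho1
    have : Fact p.Prime := ⟨hp⟩
    -- the `p`-elements of the centre of `F`
    let R : Subgroup M :=
      { carrier := {a | a ∈ F ∧ (∀ f ∈ F, f * a = a * f) ∧ ∃ j : ℕ, a ^ p ^ j = 1}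
        one_mem' := ⟨F.one_mem, by intro f _; simp, 0, one_pow _⟩
        mul_mem' := by
          rintro a c ⟨ha, hac, i, hi⟩ ⟨hc, hcc, j, hj⟩
          refine ⟨F.mul_mem ha hc, ?_, i + j, ?_⟩
          · intro f hf
            calc f * (a * c) = (f * a) * c := by group
              _ = a * (f * c) := by rw [hac f hf]; group
              _ = a * c * f := by rw [hcc f hf]; group
          · have hcomm : Commute a c := hcc a ha
            rw [hcomm.mul_pow, pow_add, pow_mul, hi, one_pow, one_mul, mul_comm, pow_mul, hj, one_pow]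
        inv_mem' := by
          rintro a ⟨ha, hac, i, hi⟩
          refine ⟨F.inv_mem ha, ?_, i, by rw [inv_pow, hi, inv_one]⟩
          intro f hf
          calc f * a⁻¹ = a⁻¹ * (a * f) * a⁻¹ := by group
            _ = a⁻¹ * (f * a) * a⁻¹ := by rw [hac f hf]
            _ = a⁻¹ * f := by group }
    have hR : R = ⊥ := by
      refine opN (p := p) hsol N hN R (fun a ha => hFN ha.1) ?_ ?_
      · rintro ⟨a, ha, -, j, hj⟩
        exact ⟨j, Subtype.ext hj⟩
      · rintro m hm a ⟨ha, hac, j, hj⟩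
        refine ⟨hFconj m hm a ha, ?_, j, by rw [conj_pow, hj, mul_one, mul_inv_cancel]⟩
        intro f hf
        have h1 : m⁻¹ * f * m ∈ F := by
          have := hFconj m⁻¹ (N.inv_mem hm) f hf
          rwa [inv_inv] at this
        have h2 := hac _ h1
        calc f * (m * a * m⁻¹) = m * ((m⁻¹ * f * m) * a) * m⁻¹ := by group
          _ = m * (a * (m⁻¹ * f * m)) * m⁻¹ := by rw [h2]
          _ = m * a * m⁻¹ * f := by group
    have hc1 : b ^ (orderOf b / p) ∈ R := by
      refine ⟨F.pow_mem hbF _, ?_, 1, ?_⟩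
      · intro f hf
        have h1 : Commute f b := hcF b hbc f hf
        exact (h1.pow_right _).eq
      · rw [pow_one, ← pow_mul, Nat.div_mul_cancel hpd, pow_orderOf_eq_one]
    rw [hR, mem_bot] at hc1
    have h2 := orderOf_dvd_of_pow_eq_one hc1
    have h3 : orderOf b ≤ orderOf b / p :=
      Nat.le_of_dvd (Nat.div_pos (Nat.le_of_dvd (orderOf_pos b) hpd) hp.pos) h2
    have h4 : orderOf b / p < orderOf b := Nat.div_lt_self (orderOf_pos b) hp.one_lt
    omega
  -- the conjugates of `z` under `N`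
  obtain ⟨D', hD'⟩ : ∃ D' : Set M, D' = {d | ∃ n ∈ N, d = n * z * n⁻¹} := ⟨_, rfl⟩
  let P : Subgroup M :=
    { carrier := {g | ∀ d ∈ D', g * d * g⁻¹ ∈ D' ∧ g⁻¹ * d * g ∈ D'}
      one_mem' := by intro d hd; simpa using hd
      mul_mem' := by
        intro a b ha hb d hd
        constructor
        · have h1 : a * b * d * (a * b)⁻¹ = a * (b * d * b⁻¹) * a⁻¹ := by group
          rw [h1]
          exact (ha _ (hb d hd).1).1
        · have h1 : (a * b)⁻¹ * d * (a * b) = b⁻¹ * (a⁻¹ * d * a) * b := by group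
          rw [h1]
          exact (hb _ (ha d hd).2).2
      inv_mem' := by
        intro a ha d hd
        rw [inv_inv]
        exact ⟨(ha d hd).2, (ha d hd).1⟩ }
  have hNP : ∀ n ∈ N, n ∈ P := by
    intro n hn d hd
    rw [hD'] at hd ⊢
    obtain ⟨m, hm, rfl⟩ := hd
    refine ⟨⟨n * m, N.mul_mem hn hm, by group⟩, ⟨n⁻¹ * m, N.mul_mem (N.inv_mem hn) hm, by group⟩⟩
  have hzP : z ∈ P := by
    intro d hd
    rw [hD'] at hd ⊢
    obtain ⟨m, hm, rfl⟩ := hd
    have h0 : z * m * z ∈ N := by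
      have := hN.conj_mem m hm z
      rwa [hzi] at this
    have h1 : z⁻¹ * m * z⁻¹ ∈ N := by rw [hzi]; exact h0
    exact ⟨⟨z * m * z, h0, by group⟩, ⟨z⁻¹ * m * z⁻¹, h1, by group⟩⟩
  have hzD : z ∈ D' := by rw [hD']; exact ⟨1, N.one_mem, by group⟩
  have hDP : ∀ d ∈ D', d ∈ P := by
    intro d hd
    rw [hD'] at hd
    obtain ⟨n, hn, rfl⟩ := hd
    exact P.mul_mem (P.mul_mem (hNP n hn) hzP) (P.inv_mem (hNP n hn))
  let D : Set P := {d | (d : M) ∈ D'}
  have hDconj : ∀ g : P, ∀ a ∈ D, g * a * g⁻¹ ∈ D := fun g a ha => (g.2 _ ha).1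
  have hDD : ∀ a ∈ D, ∀ b ∈ D, IsPGroup 2 (closure {a, b}) := by
    rintro ⟨a, haP⟩ ha ⟨b, hbP⟩ hb
    have ha' : a ∈ D' := ha
    have hb' : b ∈ D' := hb
    rw [hD'] at ha' hb'
    obtain ⟨n, hn, hna⟩ := ha'
    obtain ⟨m, hm, hmb⟩ := hb'
    obtain ⟨k, hk⟩ := hpow (n⁻¹ * m) (N.mul_mem (N.inv_mem hn) hm)
    refine Pool.Agent.H81.LO.dihedral_two (k := k) ?_ ?_ ?_
    · apply Subtype.ext
      show a * a = 1
      rw [hna]
      calc n * z * n⁻¹ * (n * z * n⁻¹) = n * (z * z) * n⁻¹ := by group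
        _ = 1 := by rw [hz]; group
    · apply Subtype.ext
      show b * b = 1
      rw [hmb]
      calc m * z * m⁻¹ * (m * z * m⁻¹) = m * (z * z) * m⁻¹ := by group
        _ = 1 := by rw [hz]; group
    · apply Subtype.ext
      show (a * b) ^ 2 ^ k = 1
      have h1 : a * b = n * y (n⁻¹ * m) * n⁻¹ := by rw [hna, hmb, hy]; group
      rw [h1, conj_pow, hk]; group
  have hW := Pool.Agent.H81.LO.baer_two hDconj hDD
  have hWn : ∀ n ∈ N, ∀ w ∈ (closure D).map P.subtype, n * w * n⁻¹ ∈ (closure D).map P.subtype := by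
    rintro n hn _ ⟨w, hw, rfl⟩
    have h1 : closure D ≤ (closure D).comap (MulAut.conj (⟨n, hNP n hn⟩ : P)).toMonoidHom := by
      rw [closure_le]
      intro a ha
      exact subset_closure (hDconj ⟨n, hNP n hn⟩ a ha)
    exact ⟨_, h1 hw, rfl⟩
  have hDW : ∀ d ∈ D', d ∈ (closure D).map P.subtype := fun d hd =>
    ⟨⟨d, hDP d hd⟩, subset_closure hd, rfl⟩
  have : Fact (Nat.Prime 2) := ⟨Nat.prime_two⟩
  have hbot := opN (p := 2) hsol N hN ((closure D).map P.subtype ⊓ N) inf_le_right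
    ((hW.map P.subtype).to_le inf_le_left)
    (fun n hn a ha => ⟨hWn n hn a ha.1, N.mul_mem (N.mul_mem hn ha.2) (N.inv_mem hn)⟩)
  apply hz1
  apply hcent
  intro n hn
  have h1 : y n ∈ (closure D).map P.subtype ⊓ N := by
    refine ⟨?_, hyN n hn⟩
    rw [hy]
    exact Subgroup.mul_mem _ (hDW z hzD) (hDW _ (by rw [hD']; exact ⟨n, hn, rfl⟩))
  rw [hbot, mem_bot, hy] at h1
  have h2 : n * z * n⁻¹ = z := by
    calc n * z * n⁻¹ = z⁻¹ * (z * (n * z * n⁻¹)) := by group
      _ = z := by rw [h1, mul_one, hzi]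
  calc z * n = n * z * n⁻¹ * n := by rw [h2]
    _ = n * z := by group

end Pool.Agent.H71.RS
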